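import Pool.Agent.Work.MP_14d743_an.Final

namespace Pool.Agent.Results.MP_14d743_an.DenseNumericalOrbit

/-- A bounded operator on a reflexive complex Banach space that is not power bounded and has no
eigenvalue has a dense numerical orbit, so it is weakly numerically hypercyclic. -/
theorem result {X : Type*} [NormedAddCommGroup X] [NormedSpace ℂ X] [CompleteSpace X]
    (hX : Function.Surjective (NormedSpace.inclusionInDoubleDual ℂ X))
    (T : X →L[ℂ] X) (hT : ¬ ∃ C : ℝ, ∀ n : ℕ, ‖T ^ n‖ ≤ C)
    (hev : ∀ (μ : ℂ) (x : X), T x = μ • x → x = 0) :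
    ∃ (x : X) (f : X →L[ℂ] ℂ), Dense (Set.range fun n : ℕ => f ((T ^ n) x)) := by
  by_contra hcon
  push Not at hcon
  obtain ⟨μ, x, hx, hTx⟩ := WNH.main hX T hT hcon
  exact hx (hev μ x hTx)

end Pool.Agent.Results.MP_14d743_an.DenseNumericalOrbit
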